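import Pool.Agent.N24.RW.All
import Pool.Agent.Y226.ZR.Den

set_option autoImplicit false
set_option linter.unusedSectionVars false

/-!
# Random orbits: a prime factor of one coordinate which does not divide the value of a polynomial

The bounds for the number of zeros of a polynomial modulo a prime are those of helper666
(`N666.TM.Zer`), copied here because that file has a large import closure.
-/

namespace Pool.Agent.N265.ORB

open Finset Filter MvPolynomial MeasureTheory
open Pool.Agent.N24.RW (Walk orb words AlmostNever ProNull)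

section
variable {ι : Type} [Fintype ι] [DecidableEq ι]

/-- the reduction of an integral polynomial -/
noncomputable abbrev mp (p : ℕ) (R : MvPolynomial ι ℤ) : MvPolynomial ι (ZMod p) :=
  R.map (Int.castRingHom (ZMod p))

theorem eval_red (p : ℕ) (R : MvPolynomial ι ℤ) (c : ι → ℤ) :
    eval (fun i => (c i : ZMod p)) (mp p R) = ((eval c R : ℤ) : ZMod p) := by
  rw [MvPolynomial.eval_map]
  exact (MvPolynomial.eval₂_comp (Int.castRingHom (ZMod p)) c R).symm

/-- the reduction modulo a large prime is not zero -/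
theorem mp_ne {R : MvPolynomial ι ℤ} (hR : R ≠ 0) : ∃ T : ℕ, ∀ p : ℕ, T < p → mp p R ≠ 0 := by
  obtain ⟨m, hm⟩ := MvPolynomial.ne_zero_iff.1 hR
  refine ⟨(coeff m R).natAbs, fun p hp h => ?_⟩
  have h1 := congrArg (coeff m) h
  rw [MvPolynomial.coeff_map, coeff_zero] at h1
  have h2 : (p : ℤ) ∣ coeff m R := (ZMod.intCast_zmod_eq_zero_iff_dvd _ _).1 h1
  have h3 := Nat.le_of_dvd (Int.natAbs_pos.2 hm) (Int.natCast_dvd.1 h2)
  omega

/-- the number of zeros modulo a prime -/
theorem zeros (R : MvPolynomial ι ℤ) (p : ℕ) [hp : Fact p.Prime] (hR : mp p R ≠ 0) :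
    ({ρ : ι → ZMod p | eval ρ (mp p R) = 0}.ncard : ℝ) * p ≤
      R.totalDegree * (p : ℝ) ^ Fintype.card ι := by
  classical
  have h := Pool.Agent.Y226.ZR.sz_mod R p hR
  have h2 : {ρ : ι → ZMod p | eval ρ (mp p R) = 0}.ncard ≤
      ((Finset.univ : Finset (Fin (Fintype.card ι) → ZMod p)).filter (fun f =>
      eval f (rename (Fintype.equivFin ι) (R.map (Int.castRingHom (ZMod p)))) = 0)).card := by
    rw [← Set.ncard_coe_finset]
    refine Set.ncard_le_ncard_of_injOn (fun ρ => ρ ∘ (Fintype.equivFin ι).symm) ?_ ?_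
      (Finset.finite_toSet _)
    · intro ρ hρ
      simp only [Finset.coe_filter, Finset.mem_univ, true_and, Set.mem_ofPred_eq]
      rw [MvPolynomial.eval_rename]
      have e : (ρ ∘ (Fintype.equivFin ι).symm) ∘ (Fintype.equivFin ι) = ρ := by
        funext i
        simp
      rw [e]
      exact hρ
    · intro ρ _ ρ' _ h
      funext i
      have := congrFun h (Fintype.equivFin ι i)
      simpa using this
  have h3 := (Nat.mul_le_mul_right p h2).trans h
  exact_mod_cast h3

end

section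
variable {J : Type} [Fintype J] [DecidableEq J]

/-- the distinguished coordinate vanishes and the polynomial in the others does not -/
def OmR (R : MvPolynomial J ℤ) (p : ℕ) : Set (Option J → ZMod p) :=
  {ρ | ρ none = 0 ∧ eval (fun j => ρ (some j)) (mp p R) ≠ 0}

theorem card_OmR {R : MvPolynomial J ℤ} (hR : R ≠ 0) : ∃ T : ℕ, ∀ p : ℕ, p.Prime → T < p →
    1 / 2 * (1 / (p : ℝ)) * (p : ℝ) ^ Fintype.card (Option J) ≤ ((OmR R p).ncard : ℝ) := by
  classical
  obtain ⟨T, hT⟩ := mp_ne hR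
  refine ⟨T + 2 * R.totalDegree, fun p hp hpT => ?_⟩
  have : Fact p.Prime := ⟨hp⟩
  have hp0 : (0 : ℝ) < p := by exact_mod_cast hp.pos
  have hz := zeros R p (hT p (by omega))
  have h1 : (OmR R p).ncard = {σ : J → ZMod p | eval σ (mp p R) ≠ 0}.ncard := by
    have e : OmR R p = (fun σ : J → ZMod p => (fun i : Option J => i.elim (0 : ZMod p) σ)) ''
        {σ : J → ZMod p | eval σ (mp p R) ≠ 0} := by
      ext ρ
      constructor
      · rintro ⟨h1, h2⟩
        refine ⟨fun j => ρ (some j), h2, ?_⟩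
        funext i
        cases i with
        | none => exact h1.symm
        | some j => rfl
      · rintro ⟨σ, h1, rfl⟩
        exact ⟨rfl, h1⟩
    rw [e]
    refine Set.ncard_image_of_injective _ fun σ σ' h => ?_
    funext j
    exact congrFun h (some j)
  have h2 : ({σ : J → ZMod p | eval σ (mp p R) ≠ 0}.ncard : ℝ) +
      ({σ : J → ZMod p | eval σ (mp p R) = 0}.ncard : ℝ) = (p : ℝ) ^ Fintype.card J := by
    have h3 := Set.ncard_add_ncard_compl {σ : J → ZMod p | eval σ (mp p R) = 0}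
    rw [Nat.card_eq_fintype_card, Fintype.card_fun, ZMod.card] at h3
    have e : {σ : J → ZMod p | eval σ (mp p R) = 0}ᶜ = {σ : J → ZMod p | eval σ (mp p R) ≠ 0} := rfl
    rw [e] at h3
    have h4 : (({σ : J → ZMod p | eval σ (mp p R) = 0}.ncard +
      {σ : J → ZMod p | eval σ (mp p R) ≠ 0}.ncard : ℕ) : ℝ) = ((p ^ Fintype.card J : ℕ) : ℝ) := by
      exact_mod_cast h3
    push_cast at h4
    linarith
  have h5 : (R.totalDegree : ℝ) * 2 ≤ p := by
    exact_mod_cast (by omega : R.totalDegree * 2 ≤ p)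
  have hpJ : (0 : ℝ) < (p : ℝ) ^ Fintype.card J := by positivity
  have h6 : ({σ : J → ZMod p | eval σ (mp p R) = 0}.ncard : ℝ) ≤ 1 / 2 * (p : ℝ) ^ Fintype.card J := by
    have h7 : ({σ : J → ZMod p | eval σ (mp p R) = 0}.ncard : ℝ) * p ≤
        (1 / 2 * (p : ℝ) ^ Fintype.card J) * p := by nlinarith
    exact le_of_mul_le_mul_right h7 hp0
  rw [h1, Fintype.card_option, pow_succ]
  have h8 : 1 / 2 * (1 / (p : ℝ)) * ((p : ℝ) ^ Fintype.card J * p) = 1 / 2 * (p : ℝ) ^ Fintype.card J := by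
    field_simp
  rw [h8]
  linarith

/-- no prime of the set `P` divides the distinguished coordinate and not the value of `R` -/
def Bad (R : MvPolynomial J ℤ) (P : Finset ℕ) : Set (Option J → ℤ) :=
  {c | ∀ p ∈ P, (fun i => (c i : ZMod p)) ∉ OmR R p}

/-- For every `M` there is a finite set of large primes which do not divide `M`, such that `Bad R P` is
small modulo their product. -/
theorem bad_small {R : MvPolynomial J ℤ} (hR : R ≠ 0) (T₀ M : ℕ) (hM : 0 < M) (ε : ℝ) (hε : 0 < ε) :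
    ∃ P : Finset ℕ, (∀ p ∈ P, p.Prime ∧ T₀ < p ∧ p.Coprime M) ∧
      ((((fun (c : Option J → ℤ) (i : Option J) => (c i : ZMod (∏ p ∈ P, p))) '' Bad R P).ncard : ℕ) : ℝ) ≤
        ε * ((∏ p ∈ P, p : ℕ) : ℝ) ^ Fintype.card (Option J) := by
  classical
  obtain ⟨T, hT⟩ := card_OmR hR
  set w : ℕ → ℝ := fun p => 1 / 2 * (1 / (p : ℝ)) with hw
  have hw0 : ∀ p, 0 ≤ w p := fun p => by rw [hw]; positivity
  have hdiv : ¬ Summable (fun p : ℕ => if p.Prime then w p else 0) := by
    intro h
    apply not_summable_one_div_on_primes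
    refine (h.mul_left 2).congr fun p => ?_
    by_cases hp : p.Prime
    · simp [Set.indicator, hp, hw]
    · simp [Set.indicator, hp]
  set good : ℕ → Prop := fun p => p.Prime ∧ max T T₀ < p ∧ p.Coprime M with hgood
  have hns : ¬ Summable (fun p : ℕ => if good p then w p else 0) := by
    intro hsum
    apply hdiv
    refine (summable_congr_cofinite ?_).mp hsum
    rw [Filter.eventuallyEq_iff_exists_mem]
    refine ⟨(Set.Iic (max T T₀) ∪ {p : ℕ | p.Prime ∧ ¬ p.Coprime M})ᶜ, ?_, ?_⟩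
    · rw [mem_cofinite, compl_compl]
      exact (Set.finite_Iic _).union (Pool.Agent.N24.RW.crit_fin (Q := fun p => p)
        (fun p p' hp hp' hne => (Nat.coprime_primes hp hp').2 hne) hM)
    · intro p hp
      simp only [Set.mem_compl_iff, Set.mem_union, Set.mem_Iic, Set.mem_ofPred_eq, not_or, not_le,
        not_and, not_not] at hp
      by_cases hpp : p.Prime
      · have h2 : good p := ⟨hpp, hp.1, hp.2 hpp⟩
        simp only [h2, hpp, if_true]
      · have h2 : ¬ good p := fun h => hpp h.1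
        simp only [h2, hpp, if_false]
  have hnn : ∀ p : ℕ, 0 ≤ (if good p then w p else 0) := by
    intro p
    have := hw0 p
    split_ifs
    · exact this
    · exact le_rfl
  have ht := (not_summable_iff_tendsto_nat_atTop_of_nonneg hnn).mp hns
  obtain ⟨y, hy⟩ := (ht.eventually_ge_atTop (-Real.log ε)).exists
  set P : Finset ℕ := (Finset.range y).filter good with hP
  have hPsum : -Real.log ε ≤ ∑ p ∈ P, w p := by
    rw [hP, Finset.sum_filter]
    exact hy
  have hPm : ∀ p ∈ P, p.Prime ∧ max T T₀ < p ∧ p.Coprime M := fun p hp => (Finset.mem_filter.1 hp).2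
  refine ⟨P, fun p hp => ⟨(hPm p hp).1, lt_of_le_of_lt (le_max_right _ _) (hPm p hp).2.1,
    (hPm p hp).2.2⟩, ?_⟩
  have h1 := Pool.Agent.N24.RW.crit_count (Q := fun p => p) P (fun p hp => (hPm p hp).1.one_lt.le)
    (fun p hp p' hp' hne => (Nat.coprime_primes (hPm p hp).1 (hPm p' hp').1).2 hne)
    (fun p => OmR R p) (Bad R P) (fun c hc p hp => hc p hp)
  refine (Nat.cast_le.2 h1).trans ?_
  rw [Nat.cast_prod]
  have h2 : ∀ p ∈ P, (((OmR R p)ᶜ.ncard : ℕ) : ℝ) ≤
      (p : ℝ) ^ Fintype.card (Option J) * Real.exp (-w p) := by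
    intro p hp
    rw [Pool.Agent.N24.RW.crit_card (hPm p hp).1.one_lt.le]
    have h3 := hT p (hPm p hp).1 (lt_of_le_of_lt (le_max_left _ _) (hPm p hp).2.1)
    have h4 := Real.add_one_le_exp (-w p)
    have h5 : (0 : ℝ) ≤ (p : ℝ) ^ Fintype.card (Option J) := by positivity
    have h6 : 1 / 2 * (1 / (p : ℝ)) = w p := rfl
    rw [h6] at h3
    nlinarith [mul_le_mul_of_nonneg_left h4 h5]
  refine (Finset.prod_le_prod (fun p _ => Nat.cast_nonneg _) h2).trans ?_
  rw [Finset.prod_mul_distrib, Finset.prod_pow, ← Real.exp_sum, Finset.sum_neg_distrib,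
    Nat.cast_prod, mul_comm ε]
  refine mul_le_mul_of_nonneg_left ?_ (by positivity)
  rw [← Real.exp_log hε, Real.exp_le_exp]
  linarith

/-- **Random orbits.** For every `ε` there is a bound `T'` such that almost surely, for all but the
proportion `ε` of the times, the distinguished coordinate of the random orbit is not zero and has a prime
factor `p` with `T₀ < p ≤ T'` which does not divide the value of `R` at the other coordinates. -/
theorem mult_orb [Nonempty J] (W : Walk (Option J)) (v : Option J → ℤ) (hv : v ≠ 0)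
    {R : MvPolynomial J ℤ} (hR : R ≠ 0) (T₀ : ℕ) (ε : ℝ) (hε : 0 < ε) :
    ∃ T' : ℕ, ∀ᵐ w ∂(words W.m), ∀ᶠ N : ℕ in atTop,
      ({n : ℕ | n < N ∧ ¬ (orb W v w n none ≠ 0 ∧ ∃ p : ℕ, p.Prime ∧ T₀ < p ∧ p ≤ T' ∧
        (p : ℤ) ∣ orb W v w n none ∧ ¬ (p : ℤ) ∣ eval (fun j => orb W v w n (some j)) R)}.ncard : ℝ) ≤
        ε * N := by
  classical
  have hcard : 2 ≤ Fintype.card (Option J) := by
    rw [Fintype.card_option]
    have : 0 < Fintype.card J := Fintype.card_pos
    omega
  obtain ⟨i0, hi0⟩ : ∃ i0, v i0 ≠ 0 := by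
    by_contra h
    push Not at h
    exact hv (funext h)
  have hM : 0 < 2 * W.q₀ * (v i0).natAbs := by
    have := W.pos
    have := Int.natAbs_pos.2 hi0
    positivity
  obtain ⟨P, hP, hPc⟩ := bad_small hR T₀ _ hM (ε / 8) (by linarith)
  have hq : 0 < ∏ p ∈ P, p := Finset.prod_pos fun p hp => (hP p hp).1.pos
  have hqc : (∏ p ∈ P, p).Coprime (2 * W.q₀ * (v i0).natAbs) :=
    Nat.Coprime.prod_left fun p hp => (hP p hp).2.2
  have h1 := Pool.Agent.N24.RW.Mn.step Pool.Agent.N24.RW.t_ORB Pool.Agent.N24.RW.t_ERG hcard W v i0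
    (Bad R P) _ hq hqc (ε / 8) (by linarith) hPc
  have h2 : AlmostNever W v {c | eval c (X none : MvPolynomial (Option J) ℤ) = 0} :=
    Pool.Agent.N24.RW.main (Option J) hcard W v hv _
      ((Pool.Agent.N24.RW.clo (Option J)).2.2.2.1 _ (X_ne_zero _))
  refine ⟨P.sup id, ?_⟩
  unfold AlmostNever at h2
  filter_upwards [h1, h2] with w g1 g2
  have g3 := g1 (ε / 4) (by linarith)
  have g4 := (tendsto_order.1 g2).2 (ε / 4) (by linarith)
  filter_upwards [g3, g4, eventually_gt_atTop 0] with N k3 k4 hN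
  have hN' : (0 : ℝ) < N := by exact_mod_cast hN
  rw [div_le_iff₀ hN'] at k3
  rw [div_lt_iff₀ hN'] at k4
  have hsub : {n : ℕ | n < N ∧ ¬ (orb W v w n none ≠ 0 ∧ ∃ p : ℕ, p.Prime ∧ T₀ < p ∧ p ≤ P.sup id ∧
        (p : ℤ) ∣ orb W v w n none ∧ ¬ (p : ℤ) ∣ eval (fun j => orb W v w n (some j)) R)} ⊆
      {n : ℕ | n < N ∧ orb W v w n ∈ Bad R P} ∪
        {n : ℕ | n < N ∧ orb W v w n ∈ {c | eval c (X none : MvPolynomial (Option J) ℤ) = 0}} := by
    rintro n ⟨hn, hn'⟩
    by_cases h0 : orb W v w n none = 0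
    · right
      refine ⟨hn, ?_⟩
      show eval (orb W v w n) (X none : MvPolynomial (Option J) ℤ) = 0
      rw [eval_X, h0]
    · left
      refine ⟨hn, fun p hp hmem => hn' ⟨h0, p, (hP p hp).1, (hP p hp).2.1,
        Finset.le_sup (f := id) hp, ?_, ?_⟩⟩
      · have := hmem.1
        exact (ZMod.intCast_zmod_eq_zero_iff_dvd _ _).1 this
      · intro hdvd
        apply hmem.2
        have h3 := eval_red p R (fun j => orb W v w n (some j))
        show eval (fun j => ((orb W v w n (some j) : ℤ) : ZMod p)) (mp p R) = 0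
        rw [h3]
        exact (ZMod.intCast_zmod_eq_zero_iff_dvd _ _).2 hdvd
  have hf1 : {n : ℕ | n < N ∧ orb W v w n ∈ Bad R P}.Finite :=
    (Set.finite_Iio N).subset fun n hn => hn.1
  have hf2 : {n : ℕ | n < N ∧ orb W v w n ∈
      {c | eval c (X none : MvPolynomial (Option J) ℤ) = 0}}.Finite :=
    (Set.finite_Iio N).subset fun n hn => hn.1
  have h5 := (Set.ncard_le_ncard hsub (hf1.union hf2)).trans (Set.ncard_union_le _ _)
  have h6 : ({n : ℕ | n < N ∧ ¬ (orb W v w n none ≠ 0 ∧ ∃ p : ℕ, p.Prime ∧ T₀ < p ∧ p ≤ P.sup id ∧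
        (p : ℤ) ∣ orb W v w n none ∧
        ¬ (p : ℤ) ∣ eval (fun j => orb W v w n (some j)) R)}.ncard : ℝ) ≤
      ({n : ℕ | n < N ∧ orb W v w n ∈ Bad R P}.ncard : ℝ) +
      ({n : ℕ | n < N ∧ orb W v w n ∈
        {c | eval c (X none : MvPolynomial (Option J) ℤ) = 0}}.ncard : ℝ) := by
    exact_mod_cast h5
  have h7 : 0 ≤ ε * N := by positivity
  calc _ ≤ _ := h6
    _ ≤ (2 * (ε / 8) + ε / 4) * N + ε / 4 * N := add_le_add k3 k4.le
    _ ≤ ε * N := by nlinarith

end

end Pool.Agent.N265.ORB
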